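import Pool.Agent.Q52.SP.Basic

/-!
# Project SP, job N18: closeness is transferred backwards
-/

namespace Pool.Agent.Q52.SP

open Finset Polynomial
open Pool.Agent.Q41.SU Pool.Agent.Q41.SP

universe u

theorem trfP : S_trfP.{u} := by
  intro l β E L Λ _ _ _ _ _ _ _ r M' κ θ ρ hk ht P Q y y' hQ hwr hy' w w' hw hw' hprod hρ hd j₁ j₂
  obtain ⟨κ', hκ', h⟩ := cg_of κ θ hk ht
  have hβ : 0 < β := lt_of_le_of_lt (Nat.zero_le _) j₁.2
  simp only [← hκ'] at hw hw'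
  have h1 : ∀ j, ∃ j', ‖eval₂ θ (w j) P / eval₂ θ (w j) Q - w' j'‖ ≤ ρ := by
    intro j
    obtain ⟨j', hj'⟩ := exists_small hβ M' _ w' (hprod j)
    rw [eval_map, eval_map] at hj'
    exact ⟨j', hj'.trans hρ⟩
  obtain ⟨a, ha⟩ := h1 j₁
  obtain ⟨b, hb⟩ := h1 j₂
  rw [← h.isoR (hw j₁) (hw j₂) hQ hwr]
  have h2 : eval₂ θ (w j₁) P / eval₂ θ (w j₁) Q - eval₂ θ (w j₂) P / eval₂ θ (w j₂) Q =
      ((eval₂ θ (w j₁) P / eval₂ θ (w j₁) Q - w' a) + (w' a - w' b)) -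
        (eval₂ θ (w j₂) P / eval₂ θ (w j₂) Q - w' b) := by ring
  rw [h2]
  exact sub_le (add_le ha (hd a b)) hb

end Pool.Agent.Q52.SP
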