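import Pool.Agent.Q52.SP.Basic

/-!
# Project SP: evaluation of iterates
-/

namespace Pool.Agent.Q52.SP

open Finset Polynomial
open Pool.Agent.Q41.SU Pool.Agent.Q41.SP

/-- evaluation of the homogenisation -/
theorem ev_hcm {E K : Type*} [Field E] [Field K] (f : E →+* K) (z : K) {d : ℕ} {A u v : E[X]}
    (hA : A.natDegree ≤ d) (hv : eval₂ f z v ≠ 0) :
    eval₂ f z (hcm d A u v) = eval₂ f z v ^ d * eval₂ f (eval₂ f z u / eval₂ f z v) A := by
  rw [hcm, eval₂_finsetSum, eval₂_eq_sum_range' f (Nat.lt_succ_of_le hA), Finset.mul_sum]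
  refine Finset.sum_congr rfl fun i hi => ?_
  have h1 : i ≤ d := Nat.lt_succ_iff.1 (Finset.mem_range.1 hi)
  have h2 : eval₂ f z v ^ d = eval₂ f z v ^ (d - i) * eval₂ f z v ^ i := by
    rw [← pow_add, Nat.sub_add_cancel h1]
  rw [eval₂_mul, eval₂_mul, eval₂_C, eval₂_pow, eval₂_pow, div_pow, h2]
  have h3 : eval₂ f z v ^ i ≠ 0 := pow_ne_zero _ hv
  field_simp

/-- evaluation of the iterates -/
theorem itr_ev {E K : Type*} [Field E] [Field K] (f : E →+* K) {D : ℕ} {P Q : E[X]}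
    (hP : P.natDegree ≤ D) (hQ : Q.natDegree ≤ D) (z : ℕ → K)
    (hz : ∀ i, eval₂ f (z i) Q ≠ 0 ∧ z (i + 1) = eval₂ f (z i) P / eval₂ f (z i) Q) (n : ℕ) :
    eval₂ f (z 0) (itr D P Q n).2 ≠ 0 ∧
      z n = eval₂ f (z 0) (itr D P Q n).1 / eval₂ f (z 0) (itr D P Q n).2 := by
  induction n with
  | zero =>
    rw [itr, eval₂_one, eval₂_X, div_one]
    exact ⟨one_ne_zero, rfl⟩
  | succ n ih =>
    rw [itr]
    dsimp only
    rw [ev_hcm f (z 0) hQ ih.1, ev_hcm f (z 0) hP ih.1, ← ih.2, (hz n).2]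
    refine ⟨mul_ne_zero (pow_ne_zero _ ih.1) (hz n).1, ?_⟩
    rw [mul_div_mul_left _ _ (pow_ne_zero _ ih.1)]

/-- the norms of the denominators -/
theorem itr_norm {E Λ : Type*} [Field E] [NormedField Λ] (f : E →+* Λ) {D : ℕ} {P Q : E[X]}
    (hP : P.natDegree ≤ D) (hQ : Q.natDegree ≤ D) (z : ℕ → Λ)
    (hz : ∀ i, ‖eval₂ f (z i) Q‖ = 1 ∧ z (i + 1) = eval₂ f (z i) P / eval₂ f (z i) Q) (n : ℕ) :
    ‖eval₂ f (z 0) (itr D P Q n).2‖ = 1 := by
  have hz' : ∀ i, eval₂ f (z i) Q ≠ 0 ∧ z (i + 1) = eval₂ f (z i) P / eval₂ f (z i) Q := by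
    intro i
    refine ⟨fun h0 => ?_, (hz i).2⟩
    have := (hz i).1
    rw [h0, norm_zero] at this
    exact zero_ne_one this
  induction n with
  | zero =>
    rw [itr, eval₂_one, norm_one]
  | succ n ih =>
    have h1 := itr_ev f hP hQ z hz' n
    rw [itr]
    dsimp only
    rw [ev_hcm f (z 0) hQ h1.1, ← h1.2, norm_mul, norm_pow, ih, one_pow, one_mul]
    exact (hz n).1

/-- rational functions with the same values have the same degree -/
theorem deg_eq {E : Type*} [Field E] {a b : ℕ} {p q p' q' : E[X]} (h : RM a p q) (h' : RM b p' q')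
    (he : p * q' = p' * q) : a = b := by
  have h1 : p ∣ p' := h.co.dvd_of_dvd_mul_right (Dvd.intro _ he)
  have h2 : p' ∣ p := h'.co.dvd_of_dvd_mul_right (Dvd.intro _ he.symm)
  have h3 : q ∣ q' := h.co.symm.dvd_of_dvd_mul_left (by rw [he]; exact Dvd.intro_left _ rfl)
  have h4 : q' ∣ q := h'.co.symm.dvd_of_dvd_mul_left (by rw [← he]; exact Dvd.intro_left _ rfl)
  have h5 := degree_eq_degree_of_associated (associated_of_dvd_dvd h1 h2)
  have h6 := degree_eq_degree_of_associated (associated_of_dvd_dvd h3 h4)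
  rw [← h.deg, ← h'.deg, natDegree_eq_of_degree_eq h5, natDegree_eq_of_degree_eq h6]

/-- iterates of a self-map of a finite set -/
theorem iter_fin {β : ℕ} (π : Fin β → Fin β) (j : Fin β) :
    π^[β + β.factorial] j = π^[β] j := by
  obtain ⟨a, b, hab, he⟩ := Fintype.exists_ne_map_eq_of_card_lt
    (fun i : Fin (β + 1) => π^[i] j) (by simp)
  wlog hlt : (a : ℕ) < b generalizing a b with H
  · refine H b a hab.symm he.symm ?_
    exact lt_of_le_of_ne (not_lt.1 hlt) fun h => hab (Fin.ext h.symm)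
  obtain ⟨d, hd⟩ : ∃ d : ℕ, (b : ℕ) = a + d := ⟨b - a, by omega⟩
  have hd0 : 0 < d := by omega
  have hdβ : d ≤ β := by
    have := b.2
    omega
  have haβ : (a : ℕ) ≤ β := Nat.lt_succ_iff.1 a.2
  rw [hd] at he
  have h1 : ∀ s : ℕ, π^[(a : ℕ) + d * s] j = π^[a] j := by
    intro s
    induction s with
    | zero => rw [Nat.mul_zero, Nat.add_zero]
    | succ s ih =>
      have h2 : (a : ℕ) + d * (s + 1) = d * s + (a + d) := by ring
      rw [h2, Function.iterate_add_apply, ← he, ← Function.iterate_add_apply, add_comm (d * s), ih]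
  obtain ⟨s, hs⟩ := Nat.dvd_factorial hd0 hdβ
  have h3 : β + β.factorial = (β - a) + (a + d * s) := by
    rw [← hs]
    omega
  have h4 : β = (β - a) + a := by omega
  rw [h3, Function.iterate_add_apply, h1, ← Function.iterate_add_apply, ← h4]

end Pool.Agent.Q52.SP
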