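import Pool.Agent.Q41.SP.Stm4

/-!
# Project SP: reduction of polynomials over an ultrametric field
-/

namespace Pool.Agent.Q52.SP

open Finset Polynomial
open Pool.Agent.Q41.SU Pool.Agent.Q41.SP

section norm

variable {Λ : Type*} [NormedField Λ] [IsUltrametricDist Λ]

theorem add_lt {a b : Λ} {r : ℝ} (ha : ‖a‖ < r) (hb : ‖b‖ < r) : ‖a + b‖ < r :=
  lt_of_le_of_lt (IsUltrametricDist.norm_add_le_max a b) (max_lt ha hb)

theorem add_le {a b : Λ} {r : ℝ} (ha : ‖a‖ ≤ r) (hb : ‖b‖ ≤ r) : ‖a + b‖ ≤ r :=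
  le_trans (IsUltrametricDist.norm_add_le_max a b) (max_le ha hb)

theorem sub_le {a b : Λ} {r : ℝ} (ha : ‖a‖ ≤ r) (hb : ‖b‖ ≤ r) : ‖a - b‖ ≤ r := by
  rw [sub_eq_add_neg]
  exact add_le ha (by rwa [norm_neg])

theorem sub_lt {a b : Λ} {r : ℝ} (ha : ‖a‖ < r) (hb : ‖b‖ < r) : ‖a - b‖ < r := by
  rw [sub_eq_add_neg]
  exact add_lt ha (by rwa [norm_neg])

omit [IsUltrametricDist Λ] in
theorem mul_lt {a b : Λ} (ha : ‖a‖ < 1) (hb : ‖b‖ ≤ 1) : ‖a * b‖ < 1 := by
  rw [norm_mul]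
  exact lt_of_le_of_lt (mul_le_of_le_one_right (norm_nonneg _) hb) ha

omit [IsUltrametricDist Λ] in
theorem mul_le {a b : Λ} (ha : ‖a‖ ≤ 1) (hb : ‖b‖ ≤ 1) : ‖a * b‖ ≤ 1 := by
  rw [norm_mul]
  exact mul_le_one₀ ha (norm_nonneg _) hb

/-- dominant terms -/
theorem eq_of_sub_lt {a b : Λ} (h : ‖a - b‖ < ‖b‖) : ‖a‖ = ‖b‖ := by
  apply le_antisymm
  · have : a = (a - b) + b := by ring
    rw [this]
    exact add_le h.le le_rfl
  · by_contra hc
    push Not at hc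
    have h1 : b = a - (a - b) := by ring
    have h2 : ‖a - (a - b)‖ < ‖b‖ := sub_lt hc h
    rw [← h1] at h2
    exact lt_irrefl _ h2

omit [IsUltrametricDist Λ] in
/-- one of the factors is small -/
theorem exists_small {β : ℕ} (hβ : 0 < β) (M' : ℕ) (a : Λ) (w : Fin β → Λ)
    (h : ∏ j, ‖a - w j‖ ≤ Real.exp (-(M' : ℝ))) :
    ∃ j, ‖a - w j‖ ≤ Real.exp (-((M' : ℝ) / β)) := by
  by_contra hc
  push Not at hc
  have : Nonempty (Fin β) := ⟨⟨0, hβ⟩⟩
  have h1 : ∏ _j : Fin β, Real.exp (-((M' : ℝ) / β)) < ∏ j, ‖a - w j‖ :=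
    Finset.prod_lt_prod_of_nonempty (fun _ _ => Real.exp_pos _) (fun j _ => hc j)
      Finset.univ_nonempty
  rw [Finset.prod_const, Finset.card_univ, Fintype.card_fin, ← Real.exp_nat_mul] at h1
  have h2 : (β : ℝ) * -((M' : ℝ) / β) = -(M' : ℝ) := by
    have : (β : ℝ) ≠ 0 := by exact_mod_cast hβ.ne'
    field_simp
  rw [h2] at h1
  exact absurd h (not_le.2 h1)

end norm

/-- the homomorphism `θ` is congruent to `κ` -/
structure Cg {E L Λ : Type*} [Field E] [Field L] [Algebra E L] [NormedField Λ] (κ : L →+* Λ)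
    (θ : E →+* Λ) : Prop where
  k : ∀ a : L, a ≠ 0 → ‖κ a‖ = 1
  t : ∀ e : E, ‖θ e - κ (algebraMap E L e)‖ < 1

namespace Cg

variable {E L Λ : Type*} [Field E] [Field L] [Algebra E L] [NormedField Λ] [IsUltrametricDist Λ]
  {κ : L →+* Λ} {θ : E →+* Λ} (h : Cg κ θ)

include h

omit [IsUltrametricDist Λ] in
theorem kle (a : L) : ‖κ a‖ ≤ 1 := by
  by_cases ha : a = 0
  · rw [ha, map_zero, norm_zero]
    exact zero_le_one
  · exact (h.k a ha).le

theorem tle (e : E) : ‖θ e‖ ≤ 1 := by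
  have h1 : θ e = (θ e - κ (algebraMap E L e)) + κ (algebraMap E L e) := by ring
  rw [h1]
  exact add_le (h.t e).le (h.kle _)

theorem wle {w : Λ} {y : L} (hw : ‖w - κ y‖ < 1) : ‖w‖ ≤ 1 := by
  have h1 : w = (w - κ y) + κ y := by ring
  rw [h1]
  exact add_le hw.le (h.kle _)

theorem ev_lt {w : Λ} {y : L} (hw : ‖w - κ y‖ < 1) (f : E[X]) :
    ‖eval₂ θ w f - κ (aeval y f)‖ < 1 := by
  induction f using Polynomial.induction_on with
  | C a => rw [eval₂_C, aeval_C]; exact h.t a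
  | add p q hp hq =>
    have h1 : eval₂ θ w (p + q) - κ (aeval y (p + q)) =
        (eval₂ θ w p - κ (aeval y p)) + (eval₂ θ w q - κ (aeval y q)) := by
      rw [eval₂_add, map_add, map_add]
      ring
    rw [h1]
    exact add_lt hp hq
  | monomial n a hn =>
    have h1 : eval₂ θ w (C a * X ^ (n + 1)) - κ (aeval y (C a * X ^ (n + 1))) =
        (eval₂ θ w (C a * X ^ n) - κ (aeval y (C a * X ^ n))) * w +
          (w - κ y) * κ (aeval y (C a * X ^ n)) := by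
      simp only [pow_succ, ← mul_assoc, eval₂_mul, eval₂_X, map_mul, aeval_X]
      ring
    rw [h1]
    exact add_lt (mul_lt hn (h.wle hw)) (mul_lt hw (h.kle _))

theorem ev_le {w : Λ} (hw : ‖w‖ ≤ 1) (f : E[X]) : ‖eval₂ θ w f‖ ≤ 1 := by
  induction f using Polynomial.induction_on with
  | C a => rw [eval₂_C]; exact h.tle a
  | add p q hp hq => rw [eval₂_add]; exact add_le hp hq
  | monomial n a hn =>
    rw [pow_succ, ← mul_assoc, eval₂_mul, eval₂_X]
    exact mul_le hn hw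

theorem ev_one {w : Λ} {y : L} (hw : ‖w - κ y‖ < 1) {f : E[X]} (hf : aeval y f ≠ 0) :
    ‖eval₂ θ w f‖ = 1 := by
  have h1 := h.ev_lt hw f
  rw [← h.k _ hf] at h1
  rw [eq_of_sub_lt h1, h.k _ hf]

theorem taylor {w w' : Λ} (hw : ‖w‖ ≤ 1) (hw' : ‖w'‖ ≤ 1) (f : E[X]) :
    ‖eval₂ θ w f - eval₂ θ w' f - eval₂ θ w' (derivative f) * (w - w')‖ ≤ ‖w - w'‖ ^ 2 := by
  induction f using Polynomial.induction_on with
  | C a =>
    rw [eval₂_C, eval₂_C, derivative_C, eval₂_zero, sub_self, zero_mul, sub_zero, norm_zero]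
    positivity
  | add p q hp hq =>
    have h1 : eval₂ θ w (p + q) - eval₂ θ w' (p + q) -
        eval₂ θ w' (derivative (p + q)) * (w - w') =
        (eval₂ θ w p - eval₂ θ w' p - eval₂ θ w' (derivative p) * (w - w')) +
        (eval₂ θ w q - eval₂ θ w' q - eval₂ θ w' (derivative q) * (w - w')) := by
      rw [derivative_add, eval₂_add, eval₂_add, eval₂_add]
      ring
    rw [h1]
    exact add_le hp hq
  | monomial n a hn =>
    rw [pow_succ, ← mul_assoc]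
    generalize C a * X ^ n = g at hn ⊢
    have h1 : eval₂ θ w (g * X) - eval₂ θ w' (g * X) -
        eval₂ θ w' (derivative (g * X)) * (w - w') =
        (eval₂ θ w g - eval₂ θ w' g - eval₂ θ w' (derivative g) * (w - w')) * w +
        eval₂ θ w' (derivative g) * (w - w') ^ 2 := by
      rw [derivative_mul, derivative_X, mul_one, eval₂_mul, eval₂_mul, eval₂_add, eval₂_mul,
        eval₂_X, eval₂_X]
      ring
    rw [h1]
    refine add_le ?_ ?_
    · rw [norm_mul]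
      calc _ ≤ ‖w - w'‖ ^ 2 * 1 := mul_le_mul hn hw (norm_nonneg _) (by positivity)
        _ = _ := mul_one _
    · rw [norm_mul, norm_pow]
      calc _ ≤ 1 * ‖w - w'‖ ^ 2 := mul_le_mul_of_nonneg_right (h.ev_le hw' _) (by positivity)
        _ = _ := one_mul _

/-- polynomials do not increase distances -/
theorem ev_sub_le {w w' : Λ} (hw : ‖w‖ ≤ 1) (hw' : ‖w'‖ ≤ 1) (f : E[X]) :
    ‖eval₂ θ w f - eval₂ θ w' f‖ ≤ ‖w - w'‖ := by
  have h1 := h.taylor hw hw' f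
  have h2 : ‖w - w'‖ ≤ 1 := sub_le hw hw'
  have h3 : eval₂ θ w f - eval₂ θ w' f = (eval₂ θ w f - eval₂ θ w' f -
    eval₂ θ w' (derivative f) * (w - w')) + eval₂ θ w' (derivative f) * (w - w') := by ring
  rw [h3]
  refine add_le (h1.trans ?_) ?_
  · rw [pow_two]
    exact mul_le_of_le_one_left (norm_nonneg _) h2
  · rw [norm_mul]
    exact mul_le_of_le_one_left (norm_nonneg _) (h.ev_le hw' _)

/-- a polynomial with nonzero derivative is an isometry -/
theorem iso {w w' : Λ} {y : L} (hw : ‖w - κ y‖ < 1) (hw' : ‖w' - κ y‖ < 1) {f : E[X]}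
    (hf : aeval y (derivative f) ≠ 0) : ‖eval₂ θ w f - eval₂ θ w' f‖ = ‖w - w'‖ := by
  by_cases hww : w = w'
  · rw [hww, sub_self, sub_self]
  have h0 : 0 < ‖w - w'‖ := norm_pos_iff.2 (sub_ne_zero.2 hww)
  have h1 := h.taylor (h.wle hw) (h.wle hw') f
  have h2 : ‖w - w'‖ < 1 := by
    have h3 : w - w' = (w - κ y) - (w' - κ y) := by ring
    rw [h3]
    exact sub_lt hw hw'
  have h3 : ‖eval₂ θ w' (derivative f) * (w - w')‖ = ‖w - w'‖ := by
    rw [norm_mul, h.ev_one hw' hf, one_mul]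
  rw [← h3]
  refine eq_of_sub_lt (lt_of_le_of_lt h1 ?_)
  rw [h3, pow_two]
  exact mul_lt_of_lt_one_left h0 h2

/-- a rational function with nonzero derivative is an isometry -/
theorem isoR {w w' : Λ} {y : L} (hw : ‖w - κ y‖ < 1) (hw' : ‖w' - κ y‖ < 1) {P Q : E[X]}
    (hQ : aeval y Q ≠ 0) (hf : aeval y (wr P Q) ≠ 0) :
    ‖eval₂ θ w P / eval₂ θ w Q - eval₂ θ w' P / eval₂ θ w' Q‖ = ‖w - w'‖ := by
  by_cases hww : w = w'
  · rw [hww, sub_self, sub_self]
  have h0 : 0 < ‖w - w'‖ := norm_pos_iff.2 (sub_ne_zero.2 hww)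
  have hP := h.taylor (h.wle hw) (h.wle hw') P
  have hQ' := h.taylor (h.wle hw) (h.wle hw') Q
  have h2 : ‖w - w'‖ < 1 := by
    have h3 : w - w' = (w - κ y) - (w' - κ y) := by ring
    rw [h3]
    exact sub_lt hw hw'
  have n1 := h.ev_one hw hQ
  have n2 := h.ev_one hw' hQ
  have z1 : eval₂ θ w Q ≠ 0 := by
    intro h0
    rw [h0, norm_zero] at n1
    exact zero_ne_one n1
  have z2 : eval₂ θ w' Q ≠ 0 := by
    intro h0
    rw [h0, norm_zero] at n2
    exact zero_ne_one n2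
  rw [div_sub_div _ _ z1 z2, norm_div, norm_mul, n1, n2, mul_one, div_one]
  have h3 : ‖eval₂ θ w' (wr P Q) * (w - w')‖ = ‖w - w'‖ := by
    rw [norm_mul, h.ev_one hw' hf, one_mul]
  have h4 : ‖eval₂ θ w P * eval₂ θ w' Q - eval₂ θ w Q * eval₂ θ w' P -
      eval₂ θ w' (wr P Q) * (w - w')‖ < ‖eval₂ θ w' (wr P Q) * (w - w')‖ := by
    have h5 : eval₂ θ w P * eval₂ θ w' Q - eval₂ θ w Q * eval₂ θ w' P -
        eval₂ θ w' (wr P Q) * (w - w') =
        (eval₂ θ w P - eval₂ θ w' P - eval₂ θ w' (derivative P) * (w - w')) * eval₂ θ w' Q -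
        (eval₂ θ w Q - eval₂ θ w' Q - eval₂ θ w' (derivative Q) * (w - w')) * eval₂ θ w' P := by
      rw [wr, eval₂_sub, eval₂_mul, eval₂_mul]
      ring
    rw [h5, h3]
    have h6 : ‖w - w'‖ ^ 2 < ‖w - w'‖ := by
      rw [pow_two]
      exact mul_lt_of_lt_one_left h0 h2
    refine sub_lt ?_ ?_
    · rw [norm_mul]
      exact lt_of_le_of_lt (mul_le_of_le_one_right (norm_nonneg _) (h.ev_le (h.wle hw') _))
        (lt_of_le_of_lt hP h6)
    · rw [norm_mul]
      exact lt_of_le_of_lt (mul_le_of_le_one_right (norm_nonneg _) (h.ev_le (h.wle hw') _))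
        (lt_of_le_of_lt hQ' h6)
  rw [eq_of_sub_lt h4, h3]

/-- a rational function does not increase distances -/
theorem leR {w w' : Λ} {y : L} (hw : ‖w - κ y‖ < 1) (hw' : ‖w' - κ y‖ < 1) {P Q : E[X]}
    (hQ : aeval y Q ≠ 0) :
    ‖eval₂ θ w P / eval₂ θ w Q - eval₂ θ w' P / eval₂ θ w' Q‖ ≤ ‖w - w'‖ := by
  have n1 := h.ev_one hw hQ
  have n2 := h.ev_one hw' hQ
  have z1 : eval₂ θ w Q ≠ 0 := by
    intro h0
    rw [h0, norm_zero] at n1
    exact zero_ne_one n1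
  have z2 : eval₂ θ w' Q ≠ 0 := by
    intro h0
    rw [h0, norm_zero] at n2
    exact zero_ne_one n2
  rw [div_sub_div _ _ z1 z2, norm_div, norm_mul, n1, n2, mul_one, div_one]
  have h5 : eval₂ θ w P * eval₂ θ w' Q - eval₂ θ w Q * eval₂ θ w' P =
      (eval₂ θ w P - eval₂ θ w' P) * eval₂ θ w' Q -
      (eval₂ θ w Q - eval₂ θ w' Q) * eval₂ θ w' P := by ring
  rw [h5]
  refine sub_le ?_ ?_
  · rw [norm_mul]
    exact (mul_le_of_le_one_right (norm_nonneg _) (h.ev_le (h.wle hw') _)).trans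
      (h.ev_sub_le (h.wle hw) (h.wle hw') P)
  · rw [norm_mul]
    exact (mul_le_of_le_one_right (norm_nonneg _) (h.ev_le (h.wle hw') _)).trans
      (h.ev_sub_le (h.wle hw) (h.wle hw') Q)

/-- a rational function maps residue discs to residue discs -/
theorem mapR {w : Λ} {y : L} (hw : ‖w - κ y‖ < 1) {P Q : E[X]} (hQ : aeval y Q ≠ 0) :
    ‖eval₂ θ w P / eval₂ θ w Q - κ (aeval y P / aeval y Q)‖ < 1 := by
  have n1 := h.ev_one hw hQ
  have z1 : eval₂ θ w Q ≠ 0 := by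
    intro h0
    rw [h0, norm_zero] at n1
    exact zero_ne_one n1
  have n2 := h.k _ hQ
  have z2 : κ (aeval y Q) ≠ 0 := by
    intro h0
    rw [h0, norm_zero] at n2
    exact zero_ne_one n2
  rw [map_div₀, div_sub_div _ _ z1 z2, norm_div, norm_mul, n1, n2, mul_one, div_one]
  have h5 : eval₂ θ w P * κ (aeval y Q) - eval₂ θ w Q * κ (aeval y P) =
      (eval₂ θ w P - κ (aeval y P)) * κ (aeval y Q) -
      (eval₂ θ w Q - κ (aeval y Q)) * κ (aeval y P) := by ring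
  rw [h5]
  exact sub_lt (mul_lt (h.ev_lt hw P) (h.kle _)) (mul_lt (h.ev_lt hw Q) (h.kle _))

end Cg

/-- the twist by a power of the Frobenius map -/
theorem cg_of {l r : ℕ} {E L Λ : Type*} [Field E] [Field L] [Algebra E L] [NormedField Λ]
    [Fact l.Prime] [CharP E l] (κ : L →+* Λ) (θ : E →+* Λ) (hk : ∀ a : L, a ≠ 0 → ‖κ a‖ = 1)
    (ht : ∀ e : E, ‖θ e - κ (algebraMap E L e) ^ l ^ r‖ < 1) :
    ∃ κ' : L →+* Λ, (∀ a, κ' a = κ a ^ l ^ r) ∧ Cg κ' θ := by
  have : CharP L l := charP_of_injective_algebraMap (algebraMap E L).injective l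
  have : ExpChar L l := ExpChar.prime Fact.out
  have h1 : ∀ a, (κ.comp (iterateFrobenius L l r)) a = κ a ^ l ^ r := fun a => by
    rw [RingHom.comp_apply, iterateFrobenius_def, map_pow]
  refine ⟨κ.comp (iterateFrobenius L l r), h1, ?_, ?_⟩
  · intro a ha
    rw [h1, norm_pow, hk a ha, one_pow]
  · intro e
    rw [h1]
    exact ht e

end Pool.Agent.Q52.SP
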