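import Pool.Agent.Q41.SP.Stm3
import Pool.Agent.Q52.SP.Itr

/-!
# Project SP, job N17: closeness at a cycle
-/

namespace Pool.Agent.Q52.SP

open Finset Polynomial
open Pool.Agent.Q41.SU Pool.Agent.Q41.SP

universe u

theorem pow_char_sub {E Λ : Type*} [Field E] [NormedField Λ] {l : ℕ} [Fact l.Prime] [CharP E l]
    (θ : E →+* Λ) (a b : Λ) (n : ℕ) : (a - b) ^ l ^ n = a ^ l ^ n - b ^ l ^ n := by
  have : CharP Λ l := charP_of_injective_ringHom θ.injective l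
  exact sub_pow_char_pow a b n

namespace Cg

variable {E L Λ : Type*} [Field E] [Field L] [Algebra E L] [NormedField Λ] [IsUltrametricDist Λ]
  {κ : L →+* Λ} {θ : E →+* Λ} (h : Cg κ θ)

include h

/-- iterates stay close to a cycle -/
theorem step {P Q : E[X]} {β ℓ : ℕ} {ε₀ : ℝ} (y : ℕ → L) (w : ℕ → Fin β → Λ)
    (hy : ∀ i, aeval (y i) Q ≠ 0 ∧ y (i + 1) = aeval (y i) P / aeval (y i) Q)
    (hw : ∀ i j, ‖w i j - κ (y i)‖ < 1)
    (hs : ∀ i < ℓ, ∀ j, ∃ j', ‖eval₂ θ (w i j) P / eval₂ θ (w i j) Q - w (i + 1) j'‖ ≤ ε₀)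
    (j : Fin β) : ∀ n ≤ ℓ, ∃ j', ∀ u : Λ, ‖u - κ (y 0)‖ < 1 → ‖u - w 0 j‖ ≤ ε₀ →
      ‖(fun x => eval₂ θ x P / eval₂ θ x Q)^[n] u - κ (y n)‖ < 1 ∧
      ‖(fun x => eval₂ θ x P / eval₂ θ x Q)^[n] u - w n j'‖ ≤ ε₀ := by
  intro n
  induction n with
  | zero => exact fun _ => ⟨j, fun u hu hu' => ⟨hu, hu'⟩⟩
  | succ n ih =>
    intro hn
    obtain ⟨j', hj'⟩ := ih (Nat.le_of_succ_le hn)
    obtain ⟨j'', hj''⟩ := hs n (Nat.lt_of_succ_le hn) j'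
    refine ⟨j'', fun u hu hu' => ?_⟩
    obtain ⟨h1, h2⟩ := hj' u hu hu'
    rw [Function.iterate_succ_apply']
    generalize (fun x => eval₂ θ x P / eval₂ θ x Q)^[n] u = v at h1 h2 ⊢
    refine ⟨?_, ?_⟩
    · rw [(hy n).2]
      exact h.mapR h1 (hy n).1
    · have h3 : eval₂ θ v P / eval₂ θ v Q - w (n + 1) j'' =
          (eval₂ θ v P / eval₂ θ v Q - eval₂ θ (w n j') P / eval₂ θ (w n j') Q) +
          (eval₂ θ (w n j') P / eval₂ θ (w n j') Q - w (n + 1) j'') := by ring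
      change ‖eval₂ θ v P / eval₂ θ v Q - w (n + 1) j''‖ ≤ ε₀
      rw [h3]
      exact add_le ((h.leR h1 (hw n j') (hy n).1).trans h2) hj''

/-- multiples of the period -/
theorem steps {P Q : E[X]} {β ℓ : ℕ} {ε₀ : ℝ} (hε : 0 ≤ ε₀) (y : ℕ → L) (w : ℕ → Fin β → Λ)
    (hy : ∀ i, aeval (y i) Q ≠ 0 ∧ y (i + 1) = aeval (y i) P / aeval (y i) Q)
    (hyl : y ℓ = y 0) (hwl : w ℓ = w 0)
    (hw : ∀ i j, ‖w i j - κ (y i)‖ < 1)
    (hs : ∀ i < ℓ, ∀ j, ∃ j', ‖eval₂ θ (w i j) P / eval₂ θ (w i j) Q - w (i + 1) j'‖ ≤ ε₀)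
    (j : Fin β) :
    ‖(fun x => eval₂ θ x P / eval₂ θ x Q)^[ℓ * (β + β.factorial)] (w 0 j) -
      (fun x => eval₂ θ x P / eval₂ θ x Q)^[ℓ * β] (w 0 j)‖ ≤ ε₀ := by
  choose π hπ using fun j => h.step y w hy hw hs j ℓ le_rfl
  have h1 : ∀ s : ℕ, ‖(fun x => eval₂ θ x P / eval₂ θ x Q)^[ℓ * s] (w 0 j) - κ (y 0)‖ < 1 ∧
      ‖(fun x => eval₂ θ x P / eval₂ θ x Q)^[ℓ * s] (w 0 j) - w 0 (π^[s] j)‖ ≤ ε₀ := by
    intro s
    induction s with
    | zero =>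
      refine ⟨hw 0 j, ?_⟩
      rw [Nat.mul_zero, Function.iterate_zero_apply, Function.iterate_zero_apply, sub_self,
        norm_zero]
      exact hε
    | succ s ih =>
      have h2 := hπ (π^[s] j) _ ih.1 ih.2
      rw [hyl, hwl, ← Function.iterate_add_apply, ← Function.iterate_succ_apply' π] at h2
      have h3 : ℓ * (s + 1) = ℓ + ℓ * s := by ring
      rw [h3]
      exact h2
  have h2 := (h1 (β + β.factorial)).2
  have h3 := (h1 β).2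
  rw [iter_fin] at h2
  have h4 : (fun x => eval₂ θ x P / eval₂ θ x Q)^[ℓ * (β + β.factorial)] (w 0 j) -
      (fun x => eval₂ θ x P / eval₂ θ x Q)^[ℓ * β] (w 0 j) =
      ((fun x => eval₂ θ x P / eval₂ θ x Q)^[ℓ * (β + β.factorial)] (w 0 j) - w 0 (π^[β] j)) -
      ((fun x => eval₂ θ x P / eval₂ θ x Q)^[ℓ * β] (w 0 j) - w 0 (π^[β] j)) := by ring
  rw [h4]
  exact sub_le h2 h3

/-- points at which a polynomial is small are close to each other -/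
theorem close {l : ℕ} [Fact l.Prime] [CharP E l] {x₀ : L} {Ψ : E[X]} (hΨ : Ψ ≠ 0)
    (hx₀ : aeval x₀ Ψ = 0) {N : ℕ} (hN : Ψ.natDegree ≤ N) {ε₀ : ℝ} {w w' : Λ}
    (hw : ‖w - κ x₀‖ < 1) (hw' : ‖w' - κ x₀‖ < 1) (h1 : ‖eval₂ θ w Ψ‖ ≤ ε₀)
    (h2 : ‖eval₂ θ w' Ψ‖ ≤ ε₀) : ‖w - w'‖ ^ N ≤ ε₀ := by
  have hint : IsIntegral E x₀ := isAlgebraic_iff_isIntegral.1 ⟨Ψ, hΨ, hx₀⟩
  have hirr := minpoly.irreducible hint
  obtain ⟨κ₁, Ψ₁, hnd, hfac⟩ := WfDvdMonoid.max_power_factor hΨ hirr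
  obtain ⟨n, g, hsep, hg⟩ := exists_separable_of_irreducible l hirr (Fact.out : l.Prime).ne_zero
  have hΨ₁ : aeval x₀ Ψ₁ ≠ 0 := fun h0 => hnd ((minpoly.dvd_iff).2 h0)
  have e1 : ∀ v : Λ, ‖v - κ x₀‖ < 1 → ‖eval₂ θ v Ψ‖ = ‖eval₂ θ v (minpoly E x₀)‖ ^ κ₁ := by
    intro v hv
    rw [hfac, eval₂_mul, eval₂_pow, norm_mul, norm_pow, h.ev_one hv hΨ₁, mul_one]
  rw [e1 w hw] at h1
  rw [e1 w' hw'] at h2
  have e2 : ∀ v : Λ, eval₂ θ v (minpoly E x₀) = eval₂ θ (v ^ l ^ n) g := by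
    intro v
    rw [← hg, ← eval_map, map_expand, expand_eval, eval_map]
  have e3 : ∀ v : Λ, ‖v - κ x₀‖ < 1 → ‖v ^ l ^ n - κ (x₀ ^ l ^ n)‖ < 1 := by
    intro v hv
    rw [map_pow, ← pow_char_sub θ, norm_pow]
    exact pow_lt_one₀ (norm_nonneg _) hv (pow_ne_zero _ (Fact.out : l.Prime).ne_zero)
  have e4 : aeval (x₀ ^ l ^ n) g = 0 := by
    rw [← expand_aeval, hg, minpoly.aeval]
  have e5 := h.iso (e3 w hw) (e3 w' hw') (hsep.aeval_derivative_ne_zero e4)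
  rw [← e2, ← e2, ← pow_char_sub θ, norm_pow] at e5
  have e6 : l ^ n * κ₁ ≤ N := by
    refine le_trans ?_ hN
    have hΨ₁0 : Ψ₁ ≠ 0 := fun h0 => hΨ₁ (by rw [h0, map_zero])
    rw [hfac, natDegree_mul (pow_ne_zero _ hirr.ne_zero) hΨ₁0, natDegree_pow, mul_comm]
    have e7 : l ^ n ≤ (minpoly E x₀).natDegree := by
      have h3 : 0 < (minpoly E x₀).natDegree := minpoly.natDegree_pos hint
      rw [← hg, natDegree_expand] at h3 ⊢
      exact Nat.le_mul_of_pos_left _ (Nat.pos_of_mul_pos_right h3)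
    exact (Nat.mul_le_mul_left κ₁ e7).trans (Nat.le_add_right _ _)
  have e8 : ‖w - w'‖ ≤ 1 := by
    have h3 : w - w' = (w - κ x₀) - (w' - κ x₀) := by ring
    rw [h3]
    exact sub_le hw.le hw'.le
  refine (pow_le_pow_of_le_one (norm_nonneg _) e8 e6).trans ?_
  rw [pow_mul, ← e5]
  have e9 : ‖eval₂ θ w (minpoly E x₀) - eval₂ θ w' (minpoly E x₀)‖ ≤
      max ‖eval₂ θ w (minpoly E x₀)‖ ‖eval₂ θ w' (minpoly E x₀)‖ :=
    sub_le (le_max_left _ _) (le_max_right _ _)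
  refine (pow_le_pow_left₀ (norm_nonneg _) e9 κ₁).trans ?_
  rcases max_choice ‖eval₂ θ w (minpoly E x₀)‖ ‖eval₂ θ w' (minpoly E x₀)‖ with h3 | h3
  · rw [h3]; exact h1
  · rw [h3]; exact h2

end Cg

theorem lcyP (hit : S_itP.{u}) : S_lcyP.{u} := by
  intro l D₀ β ℓ _ hD hβ hℓ
  refine ⟨β * (2 * D₀ ^ (ℓ * (β + β.factorial))), ?_, ?_⟩
  · exact Nat.mul_pos hβ (Nat.mul_pos two_pos (pow_pos (by omega) _))
  intro E L Λ _ _ _ _ _ _ _ _ r M' κ θ hk ht P Q hPQ y w hy hyl hwl hw hprod j j'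
  obtain ⟨κ', hκ', h⟩ := cg_of κ θ hk ht
  simp only [← hκ'] at hw
  have hs : ∀ i < ℓ, ∀ j, ∃ j', ‖eval₂ θ (w i j) P / eval₂ θ (w i j) Q - w (i + 1) j'‖ ≤
      Real.exp (-((M' : ℝ) / β)) := by
    intro i hi j
    obtain ⟨j', hj'⟩ := exists_small hβ M' _ (w (i + 1)) (hprod i hi j)
    rw [eval_map, eval_map] at hj'
    exact ⟨j', hj'⟩
  have hPd : P.natDegree ≤ D₀ := by rw [← hPQ.deg]; exact le_max_left _ _
  have hQd : Q.natDegree ≤ D₀ := by rw [← hPQ.deg]; exact le_max_right _ _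
  obtain ⟨n, hn⟩ : ∃ n, n = ℓ * (β + β.factorial) := ⟨_, rfl⟩
  obtain ⟨m, hm⟩ : ∃ m, m = ℓ * β := ⟨_, rfl⟩
  have hmn : m < n := by
    rw [hn, hm]
    exact Nat.mul_lt_mul_of_pos_left (Nat.lt_add_of_pos_right (Nat.factorial_pos β)) (by omega)
  obtain ⟨Ψ, hΨd⟩ : ∃ Ψ : E[X], Ψ = (itr D₀ P Q n).1 * (itr D₀ P Q m).2 -
    (itr D₀ P Q m).1 * (itr D₀ P Q n).2 := ⟨_, rfl⟩
  have hRn := (hit E D₀ P Q (by omega) hPQ n).1
  have hRm := (hit E D₀ P Q (by omega) hPQ m).1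
  have hΨ : Ψ ≠ 0 := by
    intro h0
    rw [hΨd, sub_eq_zero] at h0
    have h1 := deg_eq hRn hRm h0
    exact absurd (Nat.pow_right_injective hD h1) hmn.ne'
  have hdeg : Ψ.natDegree ≤ 2 * D₀ ^ (ℓ * (β + β.factorial)) := by
    rw [← hn]
    have h1 : (itr D₀ P Q n).1.natDegree ≤ D₀ ^ n := by rw [← hRn.deg]; exact le_max_left _ _
    have h2 : (itr D₀ P Q n).2.natDegree ≤ D₀ ^ n := by rw [← hRn.deg]; exact le_max_right _ _
    have h3 : (itr D₀ P Q m).1.natDegree ≤ D₀ ^ m := by rw [← hRm.deg]; exact le_max_left _ _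
    have h4 : (itr D₀ P Q m).2.natDegree ≤ D₀ ^ m := by rw [← hRm.deg]; exact le_max_right _ _
    have h5 : D₀ ^ m ≤ D₀ ^ n := Nat.pow_le_pow_right (by omega) hmn.le
    have h6 : Ψ.natDegree ≤ max ((itr D₀ P Q n).1 * (itr D₀ P Q m).2).natDegree
      ((itr D₀ P Q m).1 * (itr D₀ P Q n).2).natDegree := by
      rw [hΨd]
      exact natDegree_sub_le _ _
    have h7 := natDegree_mul_le (p := (itr D₀ P Q n).1) (q := (itr D₀ P Q m).2)
    have h8 := natDegree_mul_le (p := (itr D₀ P Q m).1) (q := (itr D₀ P Q n).2)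
    refine h6.trans (max_le ?_ ?_) <;> omega
  -- the cycle
  have hper : ∀ i, y (i + ℓ) = y i := by
    intro i
    induction i with
    | zero => rw [Nat.zero_add, hyl]
    | succ i ih => rw [Nat.add_right_comm, (hy (i + ℓ)).2, (hy i).2, ih]
  have hmul : ∀ s, y (ℓ * s) = y 0 := by
    intro s
    induction s with
    | zero => rw [Nat.mul_zero]
    | succ s ih => rw [Nat.mul_succ, hper, ih]
  have hx₀ : aeval (y 0) Ψ = 0 := by
    have h1 := itr_ev (algebraMap E L) hPd hQd y hy n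
    have h2 := itr_ev (algebraMap E L) hPd hQd y hy m
    have h3 : y n = y m := by rw [hn, hm, hmul, hmul]
    rw [h1.2, h2.2, div_eq_div_iff h1.1 h2.1] at h3
    rw [hΨd, map_sub, map_mul, map_mul]
    exact sub_eq_zero.2 h3
  -- the values at the points of the orbit
  have hval : ∀ j, ‖eval₂ θ (w 0 j) Ψ‖ ≤ Real.exp (-((M' : ℝ) / β)) := by
    intro j
    have h1 := h.steps (Real.exp_pos _).le y w hy hyl hwl hw hs j
    rw [← hn, ← hm] at h1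
    have hz0 : ∀ i, ‖(fun x => eval₂ θ x P / eval₂ θ x Q)^[i] (w 0 j) - κ' (y i)‖ < 1 := by
      intro i
      induction i with
      | zero => exact hw 0 j
      | succ i ih =>
        rw [Function.iterate_succ_apply', (hy i).2]
        exact h.mapR ih (hy i).1
    have hz : ∀ i, ‖eval₂ θ ((fun x => eval₂ θ x P / eval₂ θ x Q)^[i] (w 0 j)) Q‖ = 1 ∧
        (fun x => eval₂ θ x P / eval₂ θ x Q)^[i + 1] (w 0 j) =
          eval₂ θ ((fun x => eval₂ θ x P / eval₂ θ x Q)^[i] (w 0 j)) P /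
          eval₂ θ ((fun x => eval₂ θ x P / eval₂ θ x Q)^[i] (w 0 j)) Q := by
      intro i
      exact ⟨h.ev_one (hz0 i) (hy i).1, by rw [Function.iterate_succ_apply']⟩
    have hz' : ∀ i, eval₂ θ ((fun x => eval₂ θ x P / eval₂ θ x Q)^[i] (w 0 j)) Q ≠ 0 ∧
        (fun x => eval₂ θ x P / eval₂ θ x Q)^[i + 1] (w 0 j) =
          eval₂ θ ((fun x => eval₂ θ x P / eval₂ θ x Q)^[i] (w 0 j)) P /
          eval₂ θ ((fun x => eval₂ θ x P / eval₂ θ x Q)^[i] (w 0 j)) Q := by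
      intro i
      refine ⟨fun h0 => ?_, (hz i).2⟩
      have := (hz i).1
      rw [h0, norm_zero] at this
      exact zero_ne_one this
    have a1 := itr_ev θ hPd hQd (fun i => (fun x => eval₂ θ x P / eval₂ θ x Q)^[i] (w 0 j)) hz' n
    have a2 := itr_ev θ hPd hQd (fun i => (fun x => eval₂ θ x P / eval₂ θ x Q)^[i] (w 0 j)) hz' m
    have b1 := itr_norm θ hPd hQd (fun i => (fun x => eval₂ θ x P / eval₂ θ x Q)^[i] (w 0 j)) hz n
    have b2 := itr_norm θ hPd hQd (fun i => (fun x => eval₂ θ x P / eval₂ θ x Q)^[i] (w 0 j)) hz m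
    rw [a1.2, a2.2, div_sub_div _ _ a1.1 a2.1, norm_div, norm_mul, b1, b2, mul_one, div_one] at h1
    rw [hΨd, eval₂_sub, eval₂_mul, eval₂_mul, mul_comm (eval₂ θ (w 0 j) (itr D₀ P Q m).1)]
    exact h1
  have hfin := h.close hΨ hx₀ hdeg (hw 0 j) (hw 0 j') (hval j) (hval j')
  refine le_of_pow_le_pow_left₀ (n := 2 * D₀ ^ (ℓ * (β + β.factorial))) ?_ (Real.exp_pos _).le ?_
  · exact (Nat.mul_pos two_pos (pow_pos (by omega) _)).ne'
  refine hfin.trans (le_of_eq ?_)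
  rw [← Real.exp_nat_mul]
  congr 1
  have c1 : (β : ℝ) ≠ 0 := by exact_mod_cast (by omega : β ≠ 0)
  have c2 : ((2 * D₀ ^ (ℓ * (β + β.factorial)) : ℕ) : ℝ) ≠ 0 := by
    exact_mod_cast (Nat.mul_pos two_pos (pow_pos (by omega) _)).ne'
  rw [Nat.cast_mul β]
  field_simp

end Pool.Agent.Q52.SP
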